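import Pool.Agent.W84.G.Defs
import Pool.Agent.W358.GT.Fint

/-!
G4-CONT: from a positive proportion of triples with a property to integers
-/

set_option autoImplicit false

namespace Pool.Agent.W672.G

open Finset Filter
open Pool.Agent.W78.GT
open Pool.Agent.W358.GT (NT_ne NT_eq fib_n)
open Pool.Agent.W84.G (PosT S_CONT)

variable {t c : ℤ}

open scoped Classical in
/-- the triples with the property `R` -/
noncomputable def SR (t c : ℤ) (R : Tr → Prop) (X : ℝ) : Finset Tr :=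
  (tri t c X X).filter R

lemma mem_SR {R : Tr → Prop} {X : ℝ} {e : Tr} :
    e ∈ SR t c R X ↔ e ∈ tri t c X X ∧ R e := by
  simp [SR]

lemma posT_iff {R : Tr → Prop} : PosT t c R ↔
    ∃ κ : ℝ, 0 < κ ∧ ∃ X₀ : ℝ, ∀ X : ℝ, X₀ ≤ X → κ * X ≤ ((SR t c R X).card : ℝ) := Iff.rfl

/-- the triples with `n ≤ 0` are negligible -/
theorem pos_n {R : Tr → Prop} (h : PosT t c R) : PosT t c (fun e => R e ∧ 0 < e.2.1) := by
  classical
  rw [posT_iff] at h ⊢
  obtain ⟨b, hb, X₁, hB⟩ := h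
  set K₀ : ℕ := ∑ n ∈ Icc (-|t|) 0, (Qp t c n).natAbs.divisors.card with hK₀
  refine ⟨b / 2, by positivity, max X₁ (2 * (K₀ : ℝ) / b), fun X hX => ?_⟩
  have hX1 : X₁ ≤ X := (le_max_left _ _).trans hX
  have hX2 : 2 * (K₀ : ℝ) / b ≤ X := (le_max_right _ _).trans hX
  rw [div_le_iff₀ hb] at hX2
  have h1 : SR t c R X ⊆ (SR t c R X).filter (fun e => e.2.1 ≤ 0) ∪
      SR t c (fun e => R e ∧ 0 < e.2.1) X := by
    intro e he
    by_cases h7 : e.2.1 ≤ 0
    · exact mem_union_left _ (mem_filter.2 ⟨he, h7⟩)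
    · refine mem_union_right _ ?_
      rw [mem_SR] at he ⊢
      exact ⟨he.1, he.2, not_le.1 h7⟩
  have h2 : ((SR t c R X).filter (fun e => e.2.1 ≤ 0)).card ≤ K₀ := by
    have hm : ∀ e ∈ (SR t c R X).filter (fun e => e.2.1 ≤ 0), e.2.1 ∈ Icc (-|t|) 0 := by
      intro e he
      obtain ⟨h3, h4⟩ := mem_filter.1 he
      obtain ⟨-, -, -, -, -, h5⟩ := mem_tri.1 (mem_SR.1 h3).1
      rw [Finset.mem_Icc]
      have h6 := le_abs_self t
      have h7 := abs_nonneg t
      exact ⟨by omega, h4⟩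
    rw [card_eq_sum_card_fiberwise (f := fun e : Tr => e.2.1) hm, hK₀]
    refine sum_le_sum fun n _ => ?_
    refine fib_n (X₁ := X) (X₂ := X) n _ fun e he => ?_
    obtain ⟨h3, h4⟩ := mem_filter.1 he
    exact ⟨(mem_SR.1 (mem_filter.1 h3).1).1, h4⟩
  have h4 := (card_le_card h1).trans (card_union_le _ _)
  have h5 : ((SR t c R X).card : ℝ) ≤ K₀ + (SR t c (fun e => R e ∧ 0 < e.2.1) X).card := by
    exact_mod_cast h4.trans (Nat.add_le_add_right h2 _)
  have h6 := hB X hX1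
  linarith

/-- most triples are balanced -/
theorem bal {R : Tr → Prop} (hroot : S_ROOT t c) (hve : S_VET t c) (h : PosT t c R) :
    ∃ K : ℕ, 1 ≤ K ∧ PosT t c (fun e => R e ∧ e.1 ≤ K * e.2.2 ∧ e.2.2 ≤ K * e.1) := by
  classical
  rw [posT_iff] at h
  obtain ⟨b, hb, X₁, hB⟩ := h
  obtain ⟨C, hC, hve⟩ := hve
  obtain ⟨D, hD, hroot⟩ := hroot
  set κ : ℝ := min 1 (b / (4 * C)) with hκ
  have hκ0 : 0 < κ := lt_min one_pos (by positivity)
  have hκ1 : κ ≤ 1 := min_le_left _ _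
  have hκ2 : C * κ ≤ b / 4 := by
    have : κ ≤ b / (4 * C) := min_le_right _ _
    calc C * κ ≤ C * (b / (4 * C)) := mul_le_mul_of_nonneg_left this hC.le
      _ = b / 4 := by field_simp
  set K : ℕ := ⌈4 * C * D / (b * κ)⌉₊ + 1 with hK
  have hK0 : (0 : ℝ) < K := by rw [hK]; positivity
  have hK1 : 4 * C * D / (b * κ) ≤ K := by
    rw [hK]
    push_cast
    linarith [Nat.le_ceil (4 * C * D / (b * κ))]
  refine ⟨K, by omega, ?_⟩
  rw [posT_iff]
  refine ⟨b / 2, by positivity, max X₁ 1, fun X hX => ?_⟩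
  have hX1 : X₁ ≤ X := (le_max_left _ _).trans hX
  have hX2 : 1 ≤ X := (le_max_right _ _).trans hX
  have hX0 : 0 ≤ X := by linarith
  set V := (rts t c X).filter (fun z => ((z.1 : ℕ) : ℝ) ≤ X / K) with hV
  have hVs : V ⊆ rts t c (X / K) := by
    intro z hz
    rw [hV, mem_filter] at hz
    obtain ⟨hz1, hz2⟩ := hz
    unfold rts at hz1 ⊢
    rw [mem_filter, mem_product, Finset.mem_Icc, Finset.mem_Ico] at hz1 ⊢
    obtain ⟨⟨⟨g1, g2⟩, g3, g4⟩, g5, g6⟩ := hz1
    have g7 : z.1 ≤ ⌊X / K⌋₊ := Nat.le_floor hz2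
    refine ⟨⟨⟨g1, g7⟩, g3, ?_⟩, g5, g6⟩
    have : (z.1 : ℤ) ≤ (⌊X / K⌋₊ : ℤ) := by exact_mod_cast g7
    omega
  have hVc : (V.card : ℝ) ≤ D * (X / K) :=
    le_trans (by exact_mod_cast card_le_card hVs) (hroot (X / K) (by positivity))
  have hVE := hve κ X V hκ0 hκ1 hX2 (filter_subset _ _)
  have h1 : SR t c R X ⊆ (tri t c X X).filter (fun e => vx e ∈ V ∨ vy e ∈ V) ∪
      SR t c (fun e => R e ∧ e.1 ≤ K * e.2.2 ∧ e.2.2 ≤ K * e.1) X := by
    intro e he
    rw [mem_SR] at he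
    by_cases h7 : vx e ∈ V ∨ vy e ∈ V
    · exact mem_union_left _ (mem_filter.2 ⟨he.1, h7⟩)
    · refine mem_union_right _ ?_
      rw [mem_SR]
      push Not at h7
      obtain ⟨h8, h9⟩ := h7
      rw [hV, mem_filter, not_and, not_le] at h8 h9
      have h8 := h8 (vx_mem he.1)
      have h9 := h9 (vy_mem he.1)
      unfold vx at h8
      unfold vy at h9
      simp only at h8 h9
      obtain ⟨m1, m2, m3, m4, m5, m6⟩ := mem_tri.1 he.1
      rw [div_lt_iff₀ hK0] at h8 h9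
      refine ⟨he.1, he.2, ?_, ?_⟩
      · have : (e.1 : ℝ) ≤ K * e.2.2 := by linarith
        exact_mod_cast this
      · have : (e.2.2 : ℝ) ≤ K * e.1 := by linarith
        exact_mod_cast this
  have h2 : ((SR t c R X).card : ℝ) ≤
      (((tri t c X X).filter (fun e => vx e ∈ V ∨ vy e ∈ V)).card : ℝ) +
      (SR t c (fun e => R e ∧ e.1 ≤ K * e.2.2 ∧ e.2.2 ≤ K * e.1) X).card := by
    exact_mod_cast (card_le_card h1).trans (card_union_le _ _)
  have h3 : C * (κ * X + (V.card : ℝ) / κ) ≤ b / 2 * X := by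
    have g1 : C * ((V.card : ℝ) / κ) ≤ b / 4 * X := by
      have g2 : C * ((V.card : ℝ) / κ) ≤ C * (D * (X / K) / κ) := by gcongr
      refine g2.trans ?_
      rw [div_le_iff₀ (by positivity)] at hK1
      have g3 : C * (D * (X / K) / κ) = (4 * C * D) * X / (4 * K * κ) := by
        field_simp
      rw [g3, div_le_iff₀ (by positivity)]
      calc (4 * C * D) * X ≤ (K * (b * κ)) * X := mul_le_mul_of_nonneg_right hK1 hX0
        _ = b / 4 * X * (4 * K * κ) := by ring
    have g4 : C * (κ * X) ≤ b / 4 * X := by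
      calc C * (κ * X) = C * κ * X := by ring
        _ ≤ b / 4 * X := mul_le_mul_of_nonneg_right hκ2 hX0
    calc C * (κ * X + (V.card : ℝ) / κ) = C * (κ * X) + C * ((V.card : ℝ) / κ) := by ring
      _ ≤ b / 4 * X + b / 4 * X := by linarith
      _ = b / 2 * X := by ring
  have h6 := hB X hX1
  linarith

/-- the values of `n` which occur in triples with the property `R` -/
def Val (t c : ℤ) (R : Tr → Prop) (n : ℤ) : Prop :=
  ∃ d d' : ℕ, 1 ≤ d ∧ 1 ≤ d' ∧ (d : ℤ) * d' = Qp t c n ∧ R (d, n, d')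

/-- from triples to integers -/
theorem count_of (htyp : S_TYPT t c) (hve : S_VET t c) (R : Tr → Prop) (Bd : ℕ)
    (hP : ∀ e : Tr, R e → (NT e).divisors.card ≤ Bd * 2 ^ (NT e).primeFactors.card)
    (hpn : ∀ e : Tr, R e → 0 < e.2.1)
    (h : PosT t c R) (ε : ℝ)
    (hε : 0 < ε) : ∃ N₀ : ℕ, ∀ N : ℕ, N₀ ≤ N →
    (N : ℝ) / Real.log N ^ (2 * Real.log 2 + ε) ≤
    (open scoped Classical in
    ((((Icc 1 N).filter (fun n : ℕ => Val t c R n)).card : ℕ) : ℝ)) := by
  classical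
  rw [posT_iff] at h
  obtain ⟨b, hb, X₁, hB⟩ := h
  set β : ℝ := (Bd : ℝ) + 1 with hβ
  have hβ0 : 0 < β := by positivity
  obtain ⟨C, hC, hve⟩ := hve
  set κ : ℝ := min 1 (b / (8 * C)) with hκ
  have hκ0 : 0 < κ := lt_min one_pos (by positivity)
  have hκ1 : κ ≤ 1 := min_le_left _ _
  have hκ2 : C * κ ≤ b / 8 := by
    have : κ ≤ b / (8 * C) := min_le_right _ _
    calc C * κ ≤ C * (b / (8 * C)) := mul_le_mul_of_nonneg_left this hC.le
      _ = b / 8 := by field_simp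
  obtain ⟨X₂, htyp⟩ := htyp (ε / 4) (b * κ / (8 * C)) (by linarith) (by positivity)
  set g : ℝ := 2 * (1 + ε / 4) * Real.log 2 with hg
  have hlog2 : Real.log 2 < 0.6931471808 := Real.log_two_lt_d9
  have hlog2p : 0 < Real.log 2 := Real.log_pos (by norm_num)
  have hgap : 0 < 2 * Real.log 2 + ε - g := by rw [hg]; nlinarith
  have hmain : ∀ (N : ℕ) (X : ℝ), X = (N : ℝ) / 2 → X₁ ≤ X → X₂ ≤ X → 3 ≤ X →
      |(t : ℝ)| + |(t : ℝ) ^ 2 - 4 * c| ≤ N →
      b / 2 * X ≤ β * Real.log N ^ g * ((((Icc 1 N).filter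
        (fun n : ℕ => Val t c R n)).card : ℕ) : ℝ) := by
    intro N X hXN hN1 hN2 hN3 hN5
    have hXpos : (0 : ℝ) < X := by linarith
    set V := (rts t c X).filter (fun z =>
      (1 + ε / 4) * Real.log (Real.log X) < (((z.1).primeFactors.card : ℕ) : ℝ)) with hV
    have hVc : (V.card : ℝ) ≤ b * κ / (8 * C) * X := htyp X hN2
    have hVE := hve κ X V hκ0 hκ1 (by linarith) (filter_subset _ _)
    set S' := (SR t c R X).filter (fun e => ¬ (vx e ∈ V ∨ vy e ∈ V)) with hS'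
    have hS1 : ((SR t c R X).card : ℝ) ≤
        (((tri t c X X).filter (fun e => vx e ∈ V ∨ vy e ∈ V)).card : ℝ) + S'.card := by
      have : SR t c R X ⊆ (tri t c X X).filter (fun e => vx e ∈ V ∨ vy e ∈ V) ∪ S' := by
        intro e he
        by_cases h7 : vx e ∈ V ∨ vy e ∈ V
        · exact mem_union_left _ (mem_filter.2 ⟨(mem_SR.1 he).1, h7⟩)
        · exact mem_union_right _ (mem_filter.2 ⟨he, h7⟩)
      exact_mod_cast (card_le_card this).trans (card_union_le _ _)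
    have htri0 : ∀ e ∈ S', e ∈ tri t c X X := by
      intro e he
      rw [hS', mem_filter, mem_SR] at he
      exact he.1.1
    have hVE2 : C * (κ * X + (V.card : ℝ) / κ) ≤ b / 4 * X := by
      have h1 : (V.card : ℝ) / κ ≤ b / (8 * C) * X := by
        rw [div_le_iff₀ hκ0]
        calc (V.card : ℝ) ≤ b * κ / (8 * C) * X := hVc
          _ = b / (8 * C) * X * κ := by ring
      calc C * (κ * X + (V.card : ℝ) / κ) ≤ C * (κ * X + b / (8 * C) * X) := by
            apply mul_le_mul_of_nonneg_left _ hC.le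
            linarith
        _ = C * κ * X + b / 8 * X := by field_simp
        _ ≤ b / 8 * X + b / 8 * X := by nlinarith
        _ = b / 4 * X := by ring
    have hbX : 0 < b * X := by positivity
    have hS3 : b / 2 * X ≤ S'.card := by
      have := hB X hN1
      linarith
    refine hS3.trans ?_
    set T := (Icc 1 N).filter (fun n : ℕ => Val t c R n) with hT
    have hval : ∀ e ∈ S', 1 ≤ e.2.1.toNat ∧ ((e.2.1.toNat : ℕ) : ℤ) = e.2.1 := by
      intro e he
      obtain ⟨he1, he2⟩ := mem_filter.1 he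
      have he3 := hpn e (mem_SR.1 he1).2
      have := Int.toNat_of_nonneg he3.le
      exact ⟨by omega, this⟩
    have hmaps : ∀ e ∈ S', e.2.1.toNat ∈ T := by
      intro e he
      obtain ⟨v1, v2⟩ := hval e he
      have he' := he
      rw [hS', mem_filter, mem_SR] at he'
      obtain ⟨⟨he1, he2⟩, -⟩ := he'
      have hne := NT_ne he1
      have hnt := NT_eq he1
      obtain ⟨m1, m2, m3, m4, m5, m6⟩ := mem_tri.1 he1
      rw [hT, mem_filter, Finset.mem_Icc]
      refine ⟨⟨v1, ?_⟩, ?_⟩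
      · have h3 : (e.1 : ℝ) * e.2.2 ≤ X ^ 2 := by
          rw [pow_two]
          exact mul_le_mul m2 m4 (Nat.cast_nonneg _) hXpos.le
        have hd := disc_tri he1
        have hd' : (2 * (e.2.1 : ℝ) + t) ^ 2 = 4 * (e.1 * e.2.2) + ((t : ℝ) ^ 2 - 4 * c) := by
          exact_mod_cast hd
        set B : ℝ := |(t : ℝ) ^ 2 - 4 * c| with hBdef
        have hB0 : 0 ≤ B := abs_nonneg _
        have hB1 : (t : ℝ) ^ 2 - 4 * c ≤ B := le_abs_self _
        have hX2 : 2 * X = N := by rw [hXN]; ring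
        have h4 : 2 * (e.2.1 : ℝ) + t ≤ 2 * X + B := by
          refine abs_le_of_sq_le_sq' ?_ (by linarith) |>.2
          have hX1 : 1 ≤ X := by linarith
          nlinarith
        have h7 : -(|t| : ℝ) ≤ (t : ℝ) := neg_abs_le _
        have h8 : ((e.2.1.toNat : ℕ) : ℝ) = (e.2.1 : ℝ) := by exact_mod_cast v2
        have h9 : ((e.2.1.toNat : ℕ) : ℝ) ≤ N := by rw [h8]; linarith
        exact_mod_cast h9
      · rw [v2]
        exact ⟨e.1, e.2.2, m1, m3, m5, he2⟩
    have hfib : ∀ n ∈ T, ((S'.filter (fun e => e.2.1.toNat = n)).card : ℝ) ≤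
        β * Real.log N ^ g := by
      intro n _
      have hNX : X ≤ N := by rw [hXN]; linarith [(Nat.cast_nonneg N : (0 : ℝ) ≤ N)]
      rcases (S'.filter (fun e => e.2.1.toNat = n)).eq_empty_or_nonempty with h0 | h0
      · rw [h0, card_empty, Nat.cast_zero]
        have : 0 ≤ Real.log N := Real.log_nonneg (by linarith)
        positivity
      · obtain ⟨e₀, he₀⟩ := h0
        have hmem := (mem_filter.1 he₀).1
        obtain ⟨v1, v2⟩ := hval e₀ hmem
        rw [mem_filter, hS', mem_filter, mem_SR] at he₀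
        obtain ⟨⟨⟨he1, he2⟩, he5⟩, he6⟩ := he₀
        rw [he6] at v2
        have hne := NT_ne he1
        have hnt := NT_eq he1
        obtain ⟨m1, m2, m3, m4, m5, m6⟩ := mem_tri.1 he1
        have hω : (((NT e₀).primeFactors.card : ℕ) : ℝ) ≤
            2 * (1 + ε / 4) * Real.log (Real.log X) := by
          have h1 : ¬ vx e₀ ∈ V := fun hh => he5 (Or.inl hh)
          have h2 : ¬ vy e₀ ∈ V := fun hh => he5 (Or.inr hh)
          rw [hV, mem_filter, not_and, not_lt] at h1 h2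
          have h1 := h1 (vx_mem he1)
          have h2 := h2 (vy_mem he1)
          unfold vx at h1
          unfold vy at h2
          simp only at h1 h2
          have h3 : (NT e₀).primeFactors.card ≤
              (e₀.1).primeFactors.card + (e₀.2.2).primeFactors.card := by
            unfold NT
            rw [Nat.primeFactors_mul (by omega) (by omega)]
            exact card_union_le _ _
          have h3' : (((NT e₀).primeFactors.card : ℕ) : ℝ) ≤
              (e₀.1).primeFactors.card + (e₀.2.2).primeFactors.card := by exact_mod_cast h3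
          linarith
        have hlogX : 0 < Real.log X := Real.log_pos (by linarith)
        have hlogXN : Real.log X ≤ Real.log N := Real.log_le_log hXpos hNX
        have hg0 : 0 ≤ g := by rw [hg]; positivity
        have hdiv : (((NT e₀).divisors.card : ℕ) : ℝ) ≤ β * Real.log N ^ g := by
          have h1 := hP _ he2
          have h2 : (((NT e₀).divisors.card : ℕ) : ℝ) ≤
              β * (2 : ℝ) ^ ((NT e₀).primeFactors.card) := by
            have h3 : (((NT e₀).divisors.card : ℕ) : ℝ) ≤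
                (Bd : ℝ) * (2 : ℝ) ^ ((NT e₀).primeFactors.card) := by
              exact_mod_cast h1
            have h4 : (0 : ℝ) < (2 : ℝ) ^ ((NT e₀).primeFactors.card) := by positivity
            rw [hβ]
            nlinarith
          refine h2.trans (mul_le_mul_of_nonneg_left ?_ hβ0.le)
          calc (2 : ℝ) ^ ((NT e₀).primeFactors.card)
              = (2 : ℝ) ^ (((NT e₀).primeFactors.card : ℕ) : ℝ) := (Real.rpow_natCast _ _).symm
            _ ≤ (2 : ℝ) ^ (2 * (1 + ε / 4) * Real.log (Real.log X)) :=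
                Real.rpow_le_rpow_of_exponent_le (by norm_num) hω
            _ = Real.log X ^ g := by
                rw [Real.rpow_def_of_pos (by norm_num), Real.rpow_def_of_pos hlogX, hg]
                congr 1
                ring
            _ ≤ Real.log N ^ g := Real.rpow_le_rpow hlogX.le hlogXN hg0
        have hc1 := fib_n (t := t) (c := c) (X₁ := X) (X₂ := X) n
          (S'.filter (fun e => e.2.1.toNat = n)) (fun e he => by
            obtain ⟨g1, g2⟩ := mem_filter.1 he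
            obtain ⟨-, w2⟩ := hval e g1
            exact ⟨htri0 e g1, by rw [← w2, g2]⟩)
        have hn1 : (Qp t c n).natAbs = NT e₀ := by
          rw [v2, ← hnt, Int.natAbs_natCast]
        rw [hn1] at hc1
        have h8 : ((S'.filter (fun e => e.2.1.toNat = n)).card : ℝ) ≤
            (((NT e₀).divisors.card : ℕ) : ℝ) := by exact_mod_cast hc1
        exact h8.trans hdiv
    have hsum : (S'.card : ℝ) =
        ∑ n ∈ T, ((S'.filter (fun e => e.2.1.toNat = n)).card : ℝ) := by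
      have := card_eq_sum_card_fiberwise (s := S') (t := T)
        (f := fun e : Tr => e.2.1.toNat) hmaps
      rw [this]
      push_cast
      rfl
    rw [hsum]
    refine (sum_le_sum hfib).trans ?_
    rw [sum_const, nsmul_eq_mul]
    linarith
  -- conclusion
  have hev : ∀ᶠ x : ℝ in atTop, 4 * β / b ≤ Real.log x ^ (2 * Real.log 2 + ε - g) :=
    ((tendsto_rpow_atTop hgap).comp Real.tendsto_log_atTop).eventually_ge_atTop _
  obtain ⟨x₀, hx₀⟩ := eventually_atTop.1 hev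
  set B : ℝ := |(t : ℝ)| + |(t : ℝ) ^ 2 - 4 * c| with hBdef
  refine ⟨⌈max (max (2 * X₁) (2 * X₂)) (max x₀ B)⌉₊ + 6,
    fun N hN => ?_⟩
  have hN' : max (max (2 * X₁) (2 * X₂)) (max x₀ B) ≤ (N : ℝ) := by
    refine (Nat.le_ceil _).trans ?_
    exact_mod_cast (by omega : ⌈max (max (2 * X₁) (2 * X₂))
      (max x₀ B)⌉₊ ≤ N)
  have h1 : 2 * X₁ ≤ (N : ℝ) := (le_max_left _ _).trans ((le_max_left _ _).trans hN')
  have h2 : 2 * X₂ ≤ (N : ℝ) := (le_max_right _ _).trans ((le_max_left _ _).trans hN')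
  have h3 : x₀ ≤ (N : ℝ) := (le_max_left _ _).trans ((le_max_right _ _).trans hN')
  have h4' : B ≤ (N : ℝ) := (le_max_right _ _).trans ((le_max_right _ _).trans hN')
  have hN3 : 6 ≤ N := by omega
  have hNr : (6 : ℝ) ≤ N := by exact_mod_cast hN3
  have h5 := hmain N (N / 2) rfl (by linarith) (by linarith) (by linarith) h4'
  have h6 := hx₀ N h3
  have hlogpos : 0 < Real.log N := Real.log_pos (by linarith)
  generalize ((((Icc 1 N).filter (fun n : ℕ => Val t c R n)).card : ℕ) : ℝ) = τ at h5 ⊢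
  have hgp : 0 < Real.log N ^ g := Real.rpow_pos_of_pos hlogpos _
  have hsplit : Real.log N ^ (2 * Real.log 2 + ε) =
      Real.log N ^ (2 * Real.log 2 + ε - g) * Real.log N ^ g := by
    rw [← Real.rpow_add hlogpos]
    congr 1
    ring
  rw [div_le_iff₀ (Real.rpow_pos_of_pos hlogpos _), hsplit]
  have ht : 0 ≤ τ := by
    by_contra hneg
    push Not at hneg
    have : 0 < b / 2 * (N / 2) := by positivity
    have h8 : β * Real.log N ^ g * τ ≤ 0 :=
      mul_nonpos_of_nonneg_of_nonpos (by positivity) hneg.le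
    linarith
  have h7 : (N : ℝ) ≤ 4 * β / b * (Real.log N ^ g * τ) := by
    rw [div_mul_eq_mul_div, le_div_iff₀ hb]
    linarith
  calc (N : ℝ) ≤ 4 * β / b * (Real.log N ^ g * τ) := h7
    _ ≤ Real.log N ^ (2 * Real.log 2 + ε - g) * (Real.log N ^ g * τ) := by
        apply mul_le_mul_of_nonneg_right h6 (by positivity)
    _ = τ * (Real.log N ^ (2 * Real.log 2 + ε - g) * Real.log N ^ g) := by ring

/-- a positive proportion of the factorizations -/
theorem pairs_of (R : Tr → Prop) (hpn : ∀ e : Tr, R e → 0 < e.2.1) (h : PosT t c R) :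
    ∃ κ : ℝ, 0 < κ ∧ ∃ N₀ : ℕ, ∀ N : ℕ, N₀ ≤ N → κ * N ≤
    (Set.ncard {p : ℕ × ℕ | 1 ≤ p.1 ∧ p.1 ≤ N ∧ 1 ≤ p.2 ∧ p.2 ≤ N ∧
      ∃ n : ℕ, 1 ≤ n ∧ (p.1 : ℤ) * p.2 = Qp t c n ∧ R (p.1, (n : ℤ), p.2)} : ℝ) := by
  classical
  rw [posT_iff] at h
  obtain ⟨κ, hκ, X₀, h⟩ := h
  refine ⟨κ, hκ, ⌈X₀⌉₊, fun N hN => ?_⟩
  have hX : X₀ ≤ (N : ℝ) := (Nat.le_ceil _).trans (by exact_mod_cast hN)
  have h1 := h N hX
  set T := (Icc 1 N ×ˢ Icc 1 N).filter (fun p : ℕ × ℕ =>
    ∃ n : ℕ, 1 ≤ n ∧ (p.1 : ℤ) * p.2 = Qp t c n ∧ R (p.1, (n : ℤ), p.2)) with hT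
  have hcard : (SR t c R (N : ℝ)).card ≤ T.card := by
    refine card_le_card_of_injOn (fun x => (x.1, x.2.2)) ?_ ?_
    · intro x hx
      obtain ⟨hx1, hx2⟩ := mem_SR.1 hx
      obtain ⟨m1, m2, m3, m4, m5, m6⟩ := mem_tri.1 hx1
      rw [hT, Finset.mem_coe, mem_filter, mem_product, Finset.mem_Icc, Finset.mem_Icc]
      have hp := hpn x hx2
      have hp' : ((x.2.1.toNat : ℕ) : ℤ) = x.2.1 := Int.toNat_of_nonneg hp.le
      refine ⟨⟨⟨m1, by exact_mod_cast m2⟩, ⟨m3, by exact_mod_cast m4⟩⟩, x.2.1.toNat, by omega,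
        ?_, ?_⟩
      · rw [hp']; exact m5
      · rw [hp']; exact hx2
    · intro x hx y hy hxy
      obtain ⟨hx1, -⟩ := mem_SR.1 hx
      obtain ⟨hy1, -⟩ := mem_SR.1 hy
      have h2 := disc_tri hx1
      have h3 := disc_tri hy1
      simp only [Prod.mk.injEq] at hxy
      obtain ⟨k1, k2⟩ := hxy
      rw [k1, k2, ← h3] at h2
      have hx6 := (mem_tri.1 hx1).2.2.2.2.2
      have hy6 := (mem_tri.1 hy1).2.2.2.2.2
      have h4 : 2 * x.2.1 + t = 2 * y.2.1 + t := by
        rcases sq_eq_sq_iff_eq_or_eq_neg.1 h2 with h5 | h5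
        · exact h5
        · omega
      exact tri_ext hx1 hy1 k1 (by omega)
  have hcard' : ((SR t c R (N : ℝ)).card : ℝ) ≤ (T.card : ℝ) := by exact_mod_cast hcard
  have hset : {p : ℕ × ℕ | 1 ≤ p.1 ∧ p.1 ≤ N ∧ 1 ≤ p.2 ∧ p.2 ≤ N ∧
      ∃ n : ℕ, 1 ≤ n ∧ (p.1 : ℤ) * p.2 = Qp t c n ∧ R (p.1, (n : ℤ), p.2)} =
        (T : Set (ℕ × ℕ)) := by
    ext p
    rw [hT]
    simp only [Set.mem_ofPred_eq, coe_filter, mem_product, Finset.mem_Icc]
    tauto
  rw [hset, Set.ncard_coe_finset]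
  linarith

/-- a bound for the first member -/
theorem le_L {K : ℕ} (hK : 1 ≤ K) {d d' n : ℕ} (hn : 1 ≤ n)
    (h : (d : ℤ) * d' = Qp t c n) (hd : d ≤ K * d') :
    d ≤ K * (1 + t.natAbs + c.natAbs) * n := by
  have h1 : (d : ℤ) ^ 2 ≤ K * Qp t c n := by
    rw [← h]
    have h2 : (d : ℤ) ≤ K * d' := by exact_mod_cast hd
    have h3 : (0 : ℤ) ≤ d := Int.natCast_nonneg _
    nlinarith
  have hn' : (1 : ℤ) ≤ n := by exact_mod_cast hn
  have h4 : Qp t c n ≤ (1 + |t| + |c|) * (n : ℤ) ^ 2 := by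
    unfold Qp
    have g1 := le_abs_self t
    have g2 := le_abs_self c
    have g3 := abs_nonneg t
    have g4 := abs_nonneg c
    have gn : (n : ℤ) ≤ (n : ℤ) ^ 2 := by nlinarith
    have gn' : (1 : ℤ) ≤ (n : ℤ) ^ 2 := by nlinarith
    have g5 : t * (n : ℤ) ≤ |t| * (n : ℤ) ^ 2 :=
      (mul_le_mul_of_nonneg_right g1 (by omega)).trans (mul_le_mul_of_nonneg_left gn g3)
    have g6 : c ≤ |c| * (n : ℤ) ^ 2 := by
      have := mul_le_mul_of_nonneg_left gn' g4
      linarith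
    linarith
  have hK' : (1 : ℤ) ≤ K := by exact_mod_cast hK
  set L : ℤ := K * (1 + |t| + |c|) with hL
  have hL1 : 1 ≤ L := by
    have g3 := abs_nonneg t
    have g4 := abs_nonneg c
    nlinarith
  have h5 : (d : ℤ) ^ 2 ≤ (L * n) ^ 2 := by
    calc (d : ℤ) ^ 2 ≤ K * Qp t c n := h1
      _ ≤ K * ((1 + |t| + |c|) * (n : ℤ) ^ 2) := by
          apply mul_le_mul_of_nonneg_left h4 (by omega)
      _ = L * (n : ℤ) ^ 2 := by rw [hL]; ring
      _ ≤ L * L * (n : ℤ) ^ 2 := by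
          apply mul_le_mul_of_nonneg_right _ (by positivity)
          nlinarith
      _ = (L * n) ^ 2 := by ring
  have h6 : (d : ℤ) ≤ L * n := abs_le_of_sq_le_sq' h5 (by positivity) |>.2
  have h7 : (((K * (1 + t.natAbs + c.natAbs) * n : ℕ)) : ℤ) = L * n := by
    rw [hL]
    push_cast
    rfl
  rw [← h7] at h6
  exact_mod_cast h6

/-- G4-CONT -/
theorem cont (_hns : ¬ IsSquare (t ^ 2 - 4 * c)) (hroot : S_ROOT t c) (hve : S_VET t c)
    (htyp : S_TYPT t c) : S_CONT t c := by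
  classical
  intro R Bd hP hpos
  obtain ⟨K, hK, hpos1⟩ := bal hroot hve hpos
  have hpos2 := pos_n hpos1
  refine ⟨K * (1 + t.natAbs + c.natAbs), fun ε hε => ?_, ?_⟩
  · obtain ⟨N₀, hN⟩ := count_of htyp hve _ Bd (fun e he => hP e he.1.1) (fun e he => he.2) hpos2
      ε hε
    refine ⟨N₀, fun N hN' => (hN N hN').trans ?_⟩
    rw [← Set.ncard_coe_finset]
    refine Nat.cast_le.2 ?_
    apply Set.ncard_le_ncard
    · intro n hn
      rw [Finset.mem_coe, mem_filter, Finset.mem_Icc] at hn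
      obtain ⟨⟨hn1, hn2⟩, d, d', hd, hd', he, ⟨hR, hb1, hb2⟩, hn3⟩ := hn
      refine ⟨hn1, hn2, d, d', he, le_L hK hn1 he hb1, le_L hK hn1 ?_ hb2, hR⟩
      rw [← he, mul_comm]
    · refine (Set.finite_Icc 1 N).subset ?_
      intro n hn
      exact ⟨hn.1, hn.2.1⟩
  · obtain ⟨κ, hκ, N₀, hN⟩ := pairs_of _ (fun e he => he.2) hpos2
    refine ⟨κ, hκ, N₀, fun N hN' => (hN N hN').trans ?_⟩
    refine Nat.cast_le.2 ?_
    apply Set.ncard_le_ncard
    · rintro p ⟨h1, h2, h3, h4, n, h5, h6, h7⟩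
      exact ⟨h1, h2, h3, h4, n, h5, h6, h7.1.1⟩
    · refine ((Set.finite_Icc 1 N).prod (Set.finite_Icc 1 N)).subset ?_
      rintro p ⟨h1, h2, h3, h4, -⟩
      exact ⟨⟨h1, h2⟩, ⟨h3, h4⟩⟩

end Pool.Agent.W672.G
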